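import Pool.Agent.R847.QY.Mul

/-!
# Bihomogeneous coordinates over bases of any dimension; applications (project QY, helper847)
-/

set_option autoImplicit false

namespace Pool.Agent.R847.QY

open Matrix Topology Filter
open Pool.Agent.TH729.CV (IA mem_IA FA)
open Pool.Agent.Y720.MZ (FAon mem_IA_iff VI mem_VI fin_abstract IA_congr infinite_near' PF1)
open Pool.Agent.R847.QM
open Pool.Agent.R847.QB (S_MAT)

variable {n N : ℕ}

/-- the local ideals in bihomogeneous coordinates -/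
def PJ {L : Type} [NontriviallyNormedField L] (σ : ℚ →+* L) (V : Set (Fin N ⊕ Fin n → ℚ))
    (x : Fin N → L) (s : Fin n → L) : Set (MvPolynomial (Fin N ⊕ Fin n) ℚ) :=
  {f | ∃ U ∈ 𝓝 (x, s), ∀ (Y : Fin N → ℚ) (T : Fin n → ℚ), Y ≠ 0 → T ≠ 0 →
    (Sum.elim Y T : Fin N ⊕ Fin n → ℚ) ∈ V →
    (∃ c e : L, c ≠ 0 ∧ e ≠ 0 ∧ ((fun i => c * σ (Y i)), fun j => e * σ (T j)) ∈ U) →
    ∀ a b : ℚ, MvPolynomial.eval (Sum.elim (a • Y) (b • T)) f = 0}

lemma PJ_eq {L : Type} [NontriviallyNormedField L] [CompleteSpace L] [CharZero L] (σ : ℚ →+* L)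
    (hσ : DenseRange σ) (V : Set (Fin N ⊕ Fin n → ℚ))
    (hV : ∀ (Y : Fin N → ℚ) (T : Fin n → ℚ), (Sum.elim Y T : Fin N ⊕ Fin n → ℚ) ∈ V →
      ∀ a b : ℚ, (Sum.elim (a • Y) (b • T) : Fin N ⊕ Fin n → ℚ) ∈ V)
    (x : Fin N → L) (s : Fin n → L) (hx : x ≠ 0) (hs : s ≠ 0) :
    PJ σ V x s = (IA σ V (Sum.elim x s) : Set (MvPolynomial (Fin N ⊕ Fin n) ℚ)) := by
  ext f
  constructor
  · rintro ⟨U, hU, hf⟩
    set Φ : (Fin N ⊕ Fin n → L) → (Fin N → L) × (Fin n → L) := fun z =>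
      ((fun i => z (Sum.inl i)), fun j => z (Sum.inr j)) with hΦ
    have hΦc : Continuous Φ := by
      refine (continuous_pi fun i => ?_).prodMk (continuous_pi fun j => ?_)
      · exact continuous_apply _
      · exact continuous_apply _
    have hU2 : U ∩ {p : (Fin N → L) × (Fin n → L) | p.1 ≠ 0 ∧ p.2 ≠ 0} ∈ 𝓝 (x, s) := by
      refine inter_mem hU ?_
      have ho : IsOpen {p : (Fin N → L) × (Fin n → L) | p.1 ≠ 0 ∧ p.2 ≠ 0} :=
        (isOpen_ne.preimage continuous_fst).inter (isOpen_ne.preimage continuous_snd)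
      exact ho.mem_nhds ⟨hx, hs⟩
    refine mem_IA_iff.2 ⟨Φ ⁻¹' (U ∩ {p : (Fin N → L) × (Fin n → L) | p.1 ≠ 0 ∧ p.2 ≠ 0}), ?_, ?_⟩
    · apply hΦc.continuousAt.preimage_mem_nhds
      exact hU2
    · rintro y hy ⟨hy1, hy2, hy3⟩
      have e : (Sum.elim (fun i => y (Sum.inl i)) (fun j => y (Sum.inr j)) :
          Fin N ⊕ Fin n → ℚ) = y := by
        funext i
        rcases i with i | j <;> rfl
      have h1 := hf (fun i => y (Sum.inl i)) (fun j => y (Sum.inr j)) ?_ ?_ (by rw [e]; exact hy)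
        ⟨1, 1, one_ne_zero, one_ne_zero, ?_⟩ 1 1
      · rwa [one_smul, one_smul, e] at h1
      · intro h0
        apply hy2
        funext i
        have := congrFun h0 i
        simp only [Pi.zero_apply] at this
        show σ (y (Sum.inl i)) = 0
        rw [this, map_zero]
      · intro h0
        apply hy3
        funext j
        have := congrFun h0 j
        simp only [Pi.zero_apply] at this
        show σ (y (Sum.inr j)) = 0
        rw [this, map_zero]
      · simp only [one_mul]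
        exact hy1
  · intro hf
    obtain ⟨U, hU, hfU⟩ := mem_IA_iff.1 hf
    have hΘc : Continuous fun p : (Fin N → L) × (Fin n → L) =>
        (Sum.elim p.1 p.2 : Fin N ⊕ Fin n → L) := by
      refine continuous_pi fun i => ?_
      rcases i with i | j
      · exact (continuous_apply i).comp continuous_fst
      · exact (continuous_apply j).comp continuous_snd
    refine ⟨(fun p : (Fin N → L) × (Fin n → L) =>
        (Sum.elim p.1 p.2 : Fin N ⊕ Fin n → L)) ⁻¹' (interior U), ?_, ?_⟩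
    · apply hΘc.continuousAt.preimage_mem_nhds
      exact isOpen_interior.mem_nhds (mem_interior_iff_mem_nhds.2 hU)
    · rintro Y T hY hT hYT ⟨c, e, hc, he, hce⟩ a b
      have hΨc : Continuous fun p : L × L =>
          (Sum.elim (fun i => p.1 * σ (Y i)) (fun j => p.2 * σ (T j)) : Fin N ⊕ Fin n → L) := by
        refine continuous_pi fun i => ?_
        rcases i with i | j
        · exact continuous_fst.mul continuous_const
        · exact continuous_snd.mul continuous_const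
      have hnb : (fun p : L × L => (Sum.elim (fun i => p.1 * σ (Y i)) (fun j => p.2 * σ (T j)) :
          Fin N ⊕ Fin n → L)) ⁻¹' (interior U) ∈ 𝓝 (c, e) := by
        apply hΨc.continuousAt.preimage_mem_nhds
        exact isOpen_interior.mem_nhds hce
      obtain ⟨U₁, U₂, hU₁, hc₁, hU₂, he₂, hUU⟩ := mem_nhds_prod_iff'.1 hnb
      have hinf1 := infinite_near' σ hσ (hU₁.mem_nhds hc₁)
      have hinf2 := infinite_near' σ hσ (hU₂.mem_nhds he₂)
      have key : ∀ e' : ℚ, σ e' ∈ U₂ →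
          MvPolynomial.eval (Sum.elim (a • Y) (e' • T)) f = 0 := by
        intro e' he'
        have hpf : PF1 fun c' : ℚ => MvPolynomial.eval (fun i : Fin N ⊕ Fin n =>
            (fun (i : Fin N ⊕ Fin n) (c' : ℚ) =>
              (Sum.elim (c' • Y) (e' • T) : Fin N ⊕ Fin n → ℚ) i) i c') f := by
          refine PF1.eval (φ := fun (i : Fin N ⊕ Fin n) (c' : ℚ) =>
            (Sum.elim (c' • Y) (e' • T) : Fin N ⊕ Fin n → ℚ) i) ?_ f
          rintro (i | j)
          · simp only [Sum.elim_inl, Pi.smul_apply, smul_eq_mul]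
            exact PF1.id'.mul (PF1.const _)
          · simp only [Sum.elim_inr]
            exact PF1.const _
        refine hpf.zero (hinf1.mono ?_) a
        rintro c' ⟨hc'1, -⟩
        show MvPolynomial.eval (Sum.elim (c' • Y) (e' • T)) f = 0
        refine hfU _ (hV Y T hYT c' e') ?_
        have h1 := hUU (Set.mk_mem_prod hc'1 he')
        have e1 : (fun i => σ ((Sum.elim (c' • Y) (e' • T) : Fin N ⊕ Fin n → ℚ) i)) =
            (Sum.elim (fun i => σ c' * σ (Y i)) (fun j => σ e' * σ (T j)) :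
              Fin N ⊕ Fin n → L) := by
          funext i
          rcases i with i | j
          · simp
          · simp
        rw [e1]
        exact interior_subset h1
      have hpf : PF1 fun e' : ℚ => MvPolynomial.eval (fun i : Fin N ⊕ Fin n =>
          (fun (i : Fin N ⊕ Fin n) (e' : ℚ) =>
            (Sum.elim (a • Y) (e' • T) : Fin N ⊕ Fin n → ℚ) i) i e') f := by
        refine PF1.eval (φ := fun (i : Fin N ⊕ Fin n) (e' : ℚ) =>
          (Sum.elim (a • Y) (e' • T) : Fin N ⊕ Fin n → ℚ) i) ?_ f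
        rintro (i | j)
        · simp only [Sum.elim_inl]
          exact PF1.const _
        · simp only [Sum.elim_inr, Pi.smul_apply, smul_eq_mul]
          exact PF1.id'.mul (PF1.const _)
      refine hpf.zero (hinf2.mono ?_) b
      rintro e' ⟨he'1, -⟩
      exact key e' he'1

/-- the set of the local ideals is finite -/
lemma PJ_finite {L : Type} [NontriviallyNormedField L] [CompleteSpace L] [CharZero L]
    (σ : ℚ →+* L) (hσ : DenseRange σ) (V : Set (Fin N ⊕ Fin n → ℚ))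
    (hV : ∀ (Y : Fin N → ℚ) (T : Fin n → ℚ), (Sum.elim Y T : Fin N ⊕ Fin n → ℚ) ∈ V →
      ∀ a b : ℚ, (Sum.elim (a • Y) (b • T) : Fin N ⊕ Fin n → ℚ) ∈ V) :
    {J | ∃ (x : Fin N → L) (s : Fin n → L), x ≠ 0 ∧ s ≠ 0 ∧ J = PJ σ V x s}.Finite ↔
      FAon σ V {z : Fin N ⊕ Fin n → L | (fun i => z (Sum.inl i)) ≠ 0 ∧
        (fun j => z (Sum.inr j)) ≠ 0} := by
  have h1 : {J | ∃ (x : Fin N → L) (s : Fin n → L), x ≠ 0 ∧ s ≠ 0 ∧ J = PJ σ V x s} =
      (fun I : Ideal (MvPolynomial (Fin N ⊕ Fin n) ℚ) =>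
        (I : Set (MvPolynomial (Fin N ⊕ Fin n) ℚ))) ''
        ((fun z : Fin N ⊕ Fin n → L => IA σ V z) ''
          {z : Fin N ⊕ Fin n → L | (fun i => z (Sum.inl i)) ≠ 0 ∧
            (fun j => z (Sum.inr j)) ≠ 0}) := by
    ext J
    constructor
    · rintro ⟨x, s, hx, hs, rfl⟩
      exact ⟨_, ⟨Sum.elim x s, ⟨hx, hs⟩, rfl⟩, (PJ_eq σ hσ V hV x s hx hs).symm⟩
    · rintro ⟨_, ⟨z, ⟨hx, hs⟩, rfl⟩, rfl⟩
      refine ⟨_, _, hx, hs, ?_⟩
      rw [PJ_eq σ hσ V hV _ _ hx hs]
      have e : (Sum.elim (fun i => z (Sum.inl i)) (fun j => z (Sum.inr j)) :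
          Fin N ⊕ Fin n → L) = z := by
        funext i
        rcases i with i | j <;> rfl
      rw [e]
  rw [h1]
  exact Set.finite_image_iff SetLike.coe_injective.injOn

lemma eval_homN {d : ℕ} {p : MvPolynomial (Fin n) ℚ} (hp : p.IsHomogeneous d) (c : ℚ)
    (T : Fin n → ℚ) : MvPolynomial.eval (c • T) p = c ^ d * MvPolynomial.eval T p := by
  rw [MvPolynomial.eval_eq', MvPolynomial.eval_eq', Finset.mul_sum]
  refine Finset.sum_congr rfl fun m hm => ?_
  have h1 : ∑ i, m i = d := by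
    have := hp (MvPolynomial.mem_support_iff.1 hm)
    rw [Finsupp.weight_apply, Finsupp.sum_fintype _ _ (by simp)] at this
    simpa using this
  simp only [Pi.smul_apply, smul_eq_mul, mul_pow, Finset.prod_mul_distrib]
  rw [Finset.prod_pow_eq_pow_sum, h1]
  ring

lemma Am_smul {d : ℕ} (A : Matrix (Fin N) (Fin N) (MvPolynomial (Fin n) ℚ))
    (hA : ∀ i j, (A i j).IsHomogeneous d) (c : ℚ) (T : Fin n → ℚ) :
    Am A (c • T) = c ^ d • Am A T := by
  ext i j
  rw [Matrix.smul_apply, Am, Am, Matrix.map_apply, Matrix.map_apply, eval_homN (hA i j),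
    smul_eq_mul]

lemma SS_cone {d : ℕ} (A : Matrix (Fin N) (Fin N) (MvPolynomial (Fin n) ℚ))
    (hA : ∀ i j, (A i j).IsHomogeneous d) (Y : Fin N → ℚ) (T : Fin n → ℚ)
    (h : (Sum.elim Y T : Fin N ⊕ Fin n → ℚ) ∈ SS A) (a b : ℚ) :
    (Sum.elim (a • Y) (b • T) : Fin N ⊕ Fin n → ℚ) ∈ SS A := by
  have h1 : qv (Am A T) Y = 0 := h
  show qv (Am A (b • T)) (a • Y) = 0
  rw [Am_smul A hA]
  unfold qv at h1 ⊢
  rw [Matrix.smul_mulVec, Matrix.mulVec_smul, dotProduct_smul, dotProduct_smul, smul_dotProduct,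
    h1]
  simp

lemma ZZ_cone {d : ℕ} (A : Matrix (Fin N) (Fin N) (MvPolynomial (Fin n) ℚ))
    (hA : ∀ i j, (A i j).IsHomogeneous d) (Y : Fin N → ℚ) (T : Fin n → ℚ)
    (h : (Sum.elim Y T : Fin N ⊕ Fin n → ℚ) ∈ ZZ A) (a b : ℚ) :
    (Sum.elim (a • Y) (b • T) : Fin N ⊕ Fin n → ℚ) ∈ ZZ A := by
  have h1 : (Am A T).mulVec Y = 0 := h
  show (Am A (b • T)).mulVec (a • Y) = 0
  rw [Am_smul A hA, Matrix.smul_mulVec, Matrix.mulVec_smul, h1, smul_zero, smul_zero]

/-- **finitely many rational points on the discriminant** -/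
theorem finDisc {L : Type} [NontriviallyNormedField L] [CompleteSpace L] [CharZero L]
    (σ : ℚ →+* L) (hσ : DenseRange σ) {d : ℕ}
    (A : Matrix (Fin N) (Fin N) (MvPolynomial (Fin n) ℚ)) (hA : ∀ i j, (A i j).IsHomogeneous d)
    (hN : 5 ≤ N) (B : Finset (Fin n → ℚ))
    (hB : ∀ T : Fin n → ℚ, T ≠ 0 → (Am A T).det = 0 → ∃ β ∈ B, ∃ c : ℚ, T = c • β) :
    FAon σ (ZZ A) {z : Fin N ⊕ Fin n → L | (fun i => z (Sum.inl i)) ≠ 0 ∧
        (fun j => z (Sum.inr j)) ≠ 0} := by
  classical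
  have hne : Nonempty (Fin N) := ⟨⟨0, by omega⟩⟩
  -- the pieces
  let W : (Fin n → ℚ) → Set (Fin N ⊕ Fin n → ℚ) := fun β =>
    {y | (∃ c : ℚ, (fun j => y (Sum.inr j)) = c • β) ∧
      (Am A β).mulVec (fun i => y (Sum.inl i)) = 0}
  have hW : ∀ β, FAon σ (W β) (Set.univ : Set (Fin N ⊕ Fin n → L)) := by
    intro β
    refine FA_lin σ hσ (W β) ?_ _
    rintro w ⟨⟨c, hc⟩, hw⟩ w' ⟨⟨c', hc'⟩, hw'⟩ t
    refine ⟨⟨c + t * (c' - c), ?_⟩, ?_⟩
    · funext j
      have h1 := congrFun hc j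
      have h2 := congrFun hc' j
      simp only [Pi.smul_apply, smul_eq_mul] at h1 h2 ⊢
      rw [h1, h2]
      ring
    · have e : (fun i => w (Sum.inl i) + t * (w' (Sum.inl i) - w (Sum.inl i))) =
          (1 - t) • (fun i => w (Sum.inl i)) + t • (fun i => w' (Sum.inl i)) := by
        funext i
        simp only [Pi.add_apply, Pi.smul_apply, smul_eq_mul]
        ring
      rw [e, Matrix.mulVec_add, Matrix.mulVec_smul, Matrix.mulVec_smul, hw, hw', smul_zero,
        smul_zero, add_zero]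
  have h1 : FAon σ (⋃ β ∈ B, W β) (Set.univ : Set (Fin N ⊕ Fin n → L)) :=
    FAon.biUnion B fun β _ => hW β
  refine Set.Finite.subset h1 ?_
  rintro _ ⟨z, ⟨hz1, hz2⟩, rfl⟩
  refine ⟨z, Set.mem_univ _, ?_⟩
  have hopen : IsOpen {z : Fin N ⊕ Fin n → L | (fun i => z (Sum.inl i)) ≠ 0 ∧
      (fun j => z (Sum.inr j)) ≠ 0} := by
    have hc1 : Continuous fun z : Fin N ⊕ Fin n → L => fun i => z (Sum.inl i) :=
      continuous_pi fun i => continuous_apply _
    have hc2 : Continuous fun z : Fin N ⊕ Fin n → L => fun j => z (Sum.inr j) :=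
      continuous_pi fun i => continuous_apply _
    exact (isOpen_ne.preimage hc1).inter (isOpen_ne.preimage hc2)
  refine (IA_congr (hopen.mem_nhds ⟨hz1, hz2⟩) ?_).symm
  rintro y ⟨hy1, hy2⟩
  have hY : (fun i => y (Sum.inl i)) ≠ 0 := by
    intro h0
    apply hy1
    funext i
    have := congrFun h0 i
    simp only [Pi.zero_apply] at this
    show σ (y (Sum.inl i)) = 0
    rw [this, map_zero]
  have hT : (fun j => y (Sum.inr j)) ≠ 0 := by
    intro h0
    apply hy2
    funext i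
    have := congrFun h0 i
    simp only [Pi.zero_apply] at this
    show σ (y (Sum.inr i)) = 0
    rw [this, map_zero]
  constructor
  · intro hy
    have hmv : (Am A fun j => y (Sum.inr j)).mulVec (fun i => y (Sum.inl i)) = 0 := hy
    have hd : (Am A fun j => y (Sum.inr j)).det = 0 := by
      by_contra hd
      exact hY (Matrix.eq_zero_of_mulVec_eq_zero hd hmv)
    obtain ⟨β, hβ, c, hc⟩ := hB _ hT hd
    have hc0 : c ≠ 0 := by
      rintro rfl
      apply hT
      rw [hc, zero_smul]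
    rw [Set.mem_iUnion₂]
    refine ⟨β, hβ, ⟨c, hc⟩, ?_⟩
    rw [hc, Am_smul A hA, Matrix.smul_mulVec] at hmv
    exact (smul_eq_zero.1 hmv).resolve_left (pow_ne_zero _ hc0)
  · intro hy
    rw [Set.mem_iUnion₂] at hy
    obtain ⟨β, hβ, ⟨c, hc⟩, hmv⟩ := hy
    show (Am A fun j => y (Sum.inr j)).mulVec (fun i => y (Sum.inl i)) = 0
    rw [hc, Am_smul A hA, Matrix.smul_mulVec, hmv, smul_zero]

end Pool.Agent.R847.QY
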