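import Pool.Agent.R847.QM.Asm

/-!
# One-parameter families: points of smooth fibres and smooth points of singular fibres
(project QY, helper847)
-/

set_option autoImplicit false

namespace Pool.Agent.R847.QY

open Matrix Topology Filter
open Pool.Agent.R847.QM
open Pool.Agent.R847.QB (S_MAT)

variable {N : ℕ}

lemma near_iso' (hLIFT : S_LIFT) {L : Type} [NontriviallyNormedField L] [CompleteSpace L]
    [CharZero L] (σ : ℚ →+* L) (A : Matrix (Fin N) (Fin N) (Polynomial ℚ)) (hA : A.IsSymm)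
    (t₀ : ℚ) (v₀ : Fin N → ℚ) (hmv : (Aat A t₀).mulVec v₀ ≠ 0)
    (hq : qv (Aat A t₀) v₀ = 0) (U : Set (Fin N → L)) (hU : U ∈ 𝓝 (fun i => σ (v₀ i))) :
    {t : L | ∃ y' ∈ U, y' ≠ 0 ∧ qv (A.map (fun p => p.eval₂ σ t)) y' = 0} ∈ 𝓝 (σ t₀) := by
  have hsymm : ((Aat A t₀).map σ).IsSymm := (hA.map _).map _
  have h1 : qv ((Aat A t₀).map σ) (fun i => σ (v₀ i)) = 0 := by
    rw [map_qv, hq, map_zero]
  have h2 : ((Aat A t₀).map σ).mulVec (fun i => σ (v₀ i)) ≠ 0 := by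
    intro h
    apply hmv
    funext i
    have h3 := congrFun h i
    have h4 := RingHom.map_mulVec σ (Aat A t₀) v₀ i
    have h5 : σ (((Aat A t₀).mulVec v₀) i) = 0 := by
      rw [h4]
      exact h3
    exact (map_eq_zero σ).1 h5
  have hne : (fun i => σ (v₀ i)) ≠ (0 : Fin N → L) := by
    intro h
    rw [h, mulVec_zero] at h2
    exact h2 rfl
  have hU' : U ∩ {v | v ≠ 0} ∈ 𝓝 (fun i => σ (v₀ i)) :=
    inter_mem hU (isOpen_ne.mem_nhds hne)
  have h3 := hLIFT L N ((Aat A t₀).map σ) hsymm (fun i => σ (v₀ i)) h1 h2 _ hU'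
  have hcont : Continuous fun t : L => A.map (fun p => p.eval₂ σ t) := by
    refine continuous_matrix fun i j => ?_
    simp only [Matrix.map_apply]
    exact Polynomial.continuous_eval₂ _ _
  rw [← Aat_map] at h3
  have h4 := hcont.continuousAt.eventually h3
  filter_upwards [h4] with t ht
  obtain ⟨y', hy', hy0⟩ := ht (hA.map _)
  exact ⟨y', hy'.1, hy'.2, hy0⟩

theorem core1 (hNEAR : S_NEAR) (hLIFT : S_LIFT) (hGLOB : S_GLOB) (hALG : S_ALG) (hMAT : S_MAT)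
    {L : Type} [NontriviallyNormedField L] [CompleteSpace L] [CharZero L] (σ : ℚ →+* L)
    (hσ : DenseRange σ) (hN : 5 ≤ N) (A : Matrix (Fin N) (Fin N) (Polynomial ℚ)) (hA : A.IsSymm)
    (hA0 : A.det ≠ 0) (t₀ : ℚ) (v₀ : Fin N → ℚ) (hq : qv (Aat A t₀) v₀ = 0)
    (hmv : (Aat A t₀).mulVec v₀ ≠ 0) (U : Set (Fin (N + 1) → L))
    (hU : U ∈ 𝓝 (Fin.cons (σ t₀) (fun i => σ (v₀ i)) : Fin (N + 1) → L))
    (f : MvPolynomial (Fin (N + 1)) ℚ)
    (hf : ∀ (t : ℚ) (v : Fin N → ℚ), (Aat A t).det ≠ 0 → v ≠ 0 → qv (Aat A t) v = 0 →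
      (Fin.cons (σ t) (fun i => σ (v i)) : Fin (N + 1) → L) ∈ U →
      MvPolynomial.eval (Fin.cons t v : Fin (N + 1) → ℚ) f = 0) :
    ∀ (t : ℚ) (v : Fin N → ℚ), Aat A t ≠ 0 → qv (Aat A t) v = 0 →
      MvPolynomial.eval (Fin.cons t v : Fin (N + 1) → ℚ) f = 0 := by
  -- product neighbourhood
  have hcont : Continuous fun p : L × (Fin N → L) => (Fin.cons p.1 p.2 : Fin (N + 1) → L) := by
    refine continuous_pi fun i => ?_
    refine Fin.cases ?_ (fun j => ?_) i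
    · simpa using continuous_fst
    · simp only [Fin.cons_succ]
      exact (continuous_apply j).comp continuous_snd
  have h1 : (fun p : L × (Fin N → L) => (Fin.cons p.1 p.2 : Fin (N + 1) → L)) ⁻¹' U ∈
      𝓝 (σ t₀, fun i : Fin N => σ (v₀ i)) :=
    hcont.continuousAt.preimage_mem_nhds hU
  obtain ⟨U₁, U₂, hU₁, hy₁, hU₂, hy₂, hUU⟩ := mem_nhds_prod_iff'.1 h1
  have hne : v₀ ≠ 0 := by
    rintro rfl
    exact hmv (mulVec_zero _)
  have hneL : (fun i : Fin N => σ (v₀ i)) ≠ (0 : Fin N → L) := by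
    intro h
    apply hne
    funext i
    exact (map_eq_zero σ).1 (congrFun h i)
  have hU₂' : IsOpen (U₂ ∩ {v : Fin N → L | v ≠ 0}) := hU₂.inter isOpen_ne
  -- good parameters
  have hL := near_iso' hLIFT σ A hA t₀ v₀ hmv hq
    (U₂ ∩ {v : Fin N → L | v ≠ 0}) (hU₂'.mem_nhds ⟨hy₂, hneL⟩)
  have hR := near_iso' hLIFT (algebraMap ℚ ℝ) A hA t₀ v₀ hmv hq Set.univ univ_mem
  have hR' : {t : ℝ | ∃ y' ∈ (Set.univ : Set (Fin N → ℝ)), y' ≠ 0 ∧
      qv (A.map (fun p => p.eval₂ (algebraMap ℚ ℝ) t)) y' = 0} ∈ 𝓝 ((t₀ : ℚ) : ℝ) := by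
    rw [eq_ratCast] at hR
    exact hR
  have hinf := hNEAR L σ hσ t₀ _ _ (inter_mem (hU₁.mem_nhds hy₁) hL) hR'
  have hinf2 := hinf.sdiff (Polynomial.finite_setOfPred_isRoot hA0)
  refine hALG N (by omega) A hA f (hinf2.mono ?_)
  rintro t ⟨⟨⟨ht1, y', hy'U, hy'0, hy'q⟩, yr, -, hyr0, hyrq⟩, htd⟩
  have htd' : (Aat A t).det ≠ 0 := by
    rw [det_Aat]
    exact htd
  have hsymm : (Aat A t).IsSymm := hA.map _
  rw [Aat_map] at hy'q
  have e4 : ((t : ℚ) : ℝ) = algebraMap ℚ ℝ t := (eq_ratCast _ _).symm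
  rw [e4, Aat_map] at hyrq
  obtain ⟨w, hw0, hw⟩ := hMAT N hN (Aat A t) hsymm htd' ⟨yr, hyr0, hyrq⟩
  refine ⟨htd', ⟨w, hw0, hw⟩, ?_⟩
  -- the polynomial on the fibre
  set h : MvPolynomial (Fin N) ℚ :=
    MvPolynomial.aeval (Fin.cons (MvPolynomial.C t) (fun i => MvPolynomial.X i) :
      Fin (N + 1) → MvPolynomial (Fin N) ℚ) f with hh
  have hev : ∀ v : Fin N → ℚ, MvPolynomial.eval v h =
      MvPolynomial.eval (Fin.cons t v : Fin (N + 1) → ℚ) f := by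
    intro v
    have h1 : (MvPolynomial.aeval v : MvPolynomial (Fin N) ℚ →ₐ[ℚ] ℚ).comp
        (MvPolynomial.aeval (Fin.cons (MvPolynomial.C t) (fun i => MvPolynomial.X i) :
          Fin (N + 1) → MvPolynomial (Fin N) ℚ)) =
        MvPolynomial.aeval (Fin.cons t v : Fin (N + 1) → ℚ) := by
      apply MvPolynomial.algHom_ext
      intro i
      rw [AlgHom.comp_apply, MvPolynomial.aeval_X, MvPolynomial.aeval_X]
      refine Fin.cases ?_ (fun j => ?_) i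
      · simp
      · simp
    have h2 := DFunLike.congr_fun h1 f
    rw [AlgHom.comp_apply, MvPolynomial.aeval_eq_eval, MvPolynomial.aeval_eq_eval] at h2
    exact h2
  have h3 := hGLOB L σ hσ N (by omega) (Aat A t) hsymm htd' ⟨w, hw0, hw⟩ y' hy'0 hy'q
    (U₂ ∩ {v : Fin N → L | v ≠ 0}) (hU₂'.mem_nhds hy'U) h ?_
  · intro v hv
    rw [← hev]
    exact h3 v hv
  · intro v hv hvU
    rw [hev]
    refine hf t v htd' ?_ hv (hUU (Set.mk_mem_prod ht1 hvU.1))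
    rintro rfl
    apply hvU.2
    funext i
    exact map_zero σ

end Pool.Agent.R847.QY
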