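import Pool.Agent.R847.QY.Bic

/-!
# Diagonal families with split coefficients, and bases of dimension one (project QY, helper847)
-/

set_option autoImplicit false

namespace Pool.Agent.R847.QY

open Matrix Topology Filter
open Pool.Agent.TH729.CV (IA mem_IA FA)
open Pool.Agent.Y720.MZ (FAon mem_IA_iff IA_congr)
open Pool.Agent.R847.QM
open Pool.Agent.R847.QB (S_MAT)

variable {n N d : ℕ}

/-- linear forms -/
noncomputable def lf (l : Fin n → ℚ) : MvPolynomial (Fin n) ℚ :=
  ∑ k, MvPolynomial.C (l k) * MvPolynomial.X k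

lemma eval_lf (l T : Fin n → ℚ) : MvPolynomial.eval T (lf l) = ∑ k, l k * T k := by
  simp [lf]

lemma lf_hom (l : Fin n → ℚ) : (lf l).IsHomogeneous 1 := by
  refine MvPolynomial.IsHomogeneous.sum _ _ _ fun k _ => ?_
  have := (MvPolynomial.isHomogeneous_C (Fin n) (l k)).mul (MvPolynomial.isHomogeneous_X ℚ k)
  simpa using this

lemma lf_ne {l : Fin n → ℚ} (hl : l ≠ 0) : lf l ≠ 0 := by
  intro h
  apply hl
  funext k
  have h1 := eval_lf l (Pi.single k 1)
  rw [h, map_zero] at h1
  simpa [Pi.single_apply] using h1.symm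

/-- the diagonal matrix -/
noncomputable def DG (c : Fin N → ℚ) (l : Fin N → Fin d → Fin n → ℚ) :
    Matrix (Fin N) (Fin N) (MvPolynomial (Fin n) ℚ) :=
  Matrix.diagonal fun i => MvPolynomial.C (c i) * ∏ j, lf (l i j)

lemma DG_symm (c : Fin N → ℚ) (l : Fin N → Fin d → Fin n → ℚ) : (DG c l).IsSymm :=
  Matrix.isSymm_diagonal _

lemma DG_hom (c : Fin N → ℚ) (l : Fin N → Fin d → Fin n → ℚ) (i j : Fin N) :
    (DG c l i j).IsHomogeneous d := by
  unfold DG
  by_cases h : i = j
  · subst h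
    rw [Matrix.diagonal_apply_eq]
    have h1 := MvPolynomial.IsHomogeneous.prod Finset.univ (fun j => lf (l i j)) (fun _ => 1)
      fun j _ => lf_hom (l i j)
    have h2 := (MvPolynomial.isHomogeneous_C (Fin n) (c i)).mul h1
    simpa using h2
  · rw [Matrix.diagonal_apply_ne _ h]
    exact MvPolynomial.isHomogeneous_zero _ _ _

lemma DG_det (c : Fin N → ℚ) (hc : ∀ i, c i ≠ 0) (l : Fin N → Fin d → Fin n → ℚ)
    (hl : ∀ i j, l i j ≠ 0) : (DG c l).det ≠ 0 := by
  unfold DG
  rw [Matrix.det_diagonal]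
  refine Finset.prod_ne_zero_iff.2 fun i _ => mul_ne_zero ?_ ?_
  · intro h
    exact hc i (MvPolynomial.C_eq_zero.1 h)
  · exact Finset.prod_ne_zero_iff.2 fun j _ => lf_ne (hl i j)

lemma Am_DG (c : Fin N → ℚ) (l : Fin N → Fin d → Fin n → ℚ) (T : Fin n → ℚ) :
    Am (DG c l) T = Matrix.diagonal fun i => c i * ∏ j, ∑ k, l i j k * T k := by
  unfold Am DG
  rw [Matrix.diagonal_map (map_zero _)]
  congr 1
  funext i
  simp [eval_lf]

lemma qv_DG (c : Fin N → ℚ) (l : Fin N → Fin d → Fin n → ℚ) (T : Fin n → ℚ) (Y : Fin N → ℚ) :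
    qv (Am (DG c l) T) Y = ∑ i, c i * (∏ j, ∑ k, l i j k * T k) * Y i ^ 2 := by
  rw [Am_DG, qv, dotProduct]
  refine Finset.sum_congr rfl fun i _ => ?_
  rw [Matrix.mulVec_diagonal]
  ring

lemma FA_DG {L : Type} [NontriviallyNormedField L] [CompleteSpace L] [CharZero L]
    (σ : ℚ →+* L) (hσ : DenseRange σ) (c : Fin N → ℚ) (hc : ∀ i, c i ≠ 0)
    (l : Fin N → Fin d → Fin n → ℚ) (Ω : Set (Fin N ⊕ Fin n → L)) :
    FAon σ (ZZ (DG c l)) Ω := by
  classical
  -- the linear spaces
  let W : (Fin N → Option (Fin d)) → Set (Fin N ⊕ Fin n → ℚ) := fun φ =>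
    {y | ∀ i, (φ i).elim (y (Sum.inl i) = 0) fun j => ∑ k, l i j k * y (Sum.inr k) = 0}
  have hW : ∀ φ, FAon σ (W φ) Ω := by
    intro φ
    refine FA_lin σ hσ (W φ) ?_ _
    intro w hw w' hw' t i
    have h1 := hw i
    have h2 := hw' i
    rcases hφ : φ i with _ | j
    · rw [hφ] at h1 h2
      have h1' : w (Sum.inl i) = 0 := h1
      have h2' : w' (Sum.inl i) = 0 := h2
      show w (Sum.inl i) + t * (w' (Sum.inl i) - w (Sum.inl i)) = 0
      rw [h1', h2']
      ring
    · rw [hφ] at h1 h2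
      have h1' : ∑ k, l i j k * w (Sum.inr k) = 0 := h1
      have h2' : ∑ k, l i j k * w' (Sum.inr k) = 0 := h2
      show ∑ k, l i j k * (w (Sum.inr k) + t * (w' (Sum.inr k) - w (Sum.inr k))) = 0
      have e : ∑ k, l i j k * (w (Sum.inr k) + t * (w' (Sum.inr k) - w (Sum.inr k))) =
          (∑ k, l i j k * w (Sum.inr k)) + t * ((∑ k, l i j k * w' (Sum.inr k)) -
            ∑ k, l i j k * w (Sum.inr k)) := by
        rw [mul_sub, Finset.mul_sum, Finset.mul_sum, ← Finset.sum_sub_distrib,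
          ← Finset.sum_add_distrib]
        refine Finset.sum_congr rfl fun k _ => ?_
        ring
      rw [e, h1', h2']
      ring
  have h1 : ZZ (DG c l) = ⋃ φ ∈ (Finset.univ : Finset (Fin N → Option (Fin d))), W φ := by
    ext y
    rw [Set.mem_iUnion₂]
    constructor
    · intro hy
      have hmv : (Am (DG c l) fun j => y (Sum.inr j)).mulVec (fun i => y (Sum.inl i)) = 0 := hy
      rw [Am_DG] at hmv
      have h2 : ∀ i, y (Sum.inl i) = 0 ∨ ∃ j, ∑ k, l i j k * y (Sum.inr k) = 0 := by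
        intro i
        have h3 := congrFun hmv i
        rw [Matrix.mulVec_diagonal, Pi.zero_apply] at h3
        rcases mul_eq_zero.1 h3 with h4 | h4
        · right
          have h5 := (mul_eq_zero.1 h4).resolve_left (hc i)
          obtain ⟨j, -, hj⟩ := Finset.prod_eq_zero_iff.1 h5
          exact ⟨j, hj⟩
        · exact Or.inl h4
      have h3 : ∀ i, ∃ o : Option (Fin d), o.elim (y (Sum.inl i) = 0)
          fun j => ∑ k, l i j k * y (Sum.inr k) = 0 := by
        intro i
        rcases h2 i with h | ⟨j, hj⟩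
        · exact ⟨none, h⟩
        · exact ⟨some j, hj⟩
      choose φ hφ using h3
      exact ⟨φ, Finset.mem_univ _, hφ⟩
    · rintro ⟨φ, -, hφ⟩
      show (Am (DG c l) fun j => y (Sum.inr j)).mulVec (fun i => y (Sum.inl i)) = 0
      rw [Am_DG]
      funext i
      rw [Matrix.mulVec_diagonal, Pi.zero_apply]
      have h2 := hφ i
      rcases hφi : φ i with _ | j
      · rw [hφi] at h2
        have h3 : y (Sum.inl i) = 0 := h2
        rw [h3, mul_zero]
      · rw [hφi] at h2
        have h3 : ∑ k, l i j k * y (Sum.inr k) = 0 := h2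
        rw [Finset.prod_eq_zero (Finset.mem_univ j) h3, mul_zero, zero_mul]
  rw [h1]
  exact FAon.biUnion _ fun φ _ => hW φ

/-- the rational points of the discriminant over the line -/
lemma disc2 {d : ℕ} (A : Matrix (Fin N) (Fin N) (MvPolynomial (Fin 2) ℚ))
    (hA : ∀ i j, (A i j).IsHomogeneous d) (hA0 : A.det ≠ 0) :
    ∃ B : Finset (Fin 2 → ℚ), ∀ T : Fin 2 → ℚ, T ≠ 0 → (Am A T).det = 0 →
      ∃ β ∈ B, ∃ c : ℚ, T = c • β := by
  classical
  -- the polynomial of the chart
  set P : Polynomial ℚ := MvPolynomial.aeval ![1, Polynomial.X] A.det with hP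
  have hPe : ∀ t : ℚ, P.eval t = MvPolynomial.eval ![1, t] A.det := by
    intro t
    have h1 : (Polynomial.aeval t : Polynomial ℚ →ₐ[ℚ] ℚ).comp
        (MvPolynomial.aeval ![1, Polynomial.X]) = MvPolynomial.aeval ![1, t] := by
      apply MvPolynomial.algHom_ext
      intro i
      rw [AlgHom.comp_apply, MvPolynomial.aeval_X, MvPolynomial.aeval_X]
      fin_cases i
      · simp
      · simp
    have h2 := DFunLike.congr_fun h1 A.det
    rw [AlgHom.comp_apply, MvPolynomial.aeval_eq_eval, Polynomial.coe_aeval_eq_eval] at h2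
    exact h2
  have hT : ∀ T : Fin 2 → ℚ, T 0 ≠ 0 → T = T 0 • ![1, T 1 / T 0] := by
    intro T h0
    funext i
    fin_cases i
    · simp
    · simp only [Fin.mk_one, Pi.smul_apply, smul_eq_mul, Matrix.cons_val_one, Matrix.cons_val_fin_one]
      field_simp
  have hdet : ∀ (c : ℚ) (T : Fin 2 → ℚ), (Am A (c • T)).det = (c ^ d) ^ N * (Am A T).det := by
    intro c T
    rw [Am_smul A hA, Matrix.det_smul, Fintype.card_fin]
  have hP0 : P ≠ 0 := by
    intro h0
    have h1 : A.det * MvPolynomial.X 0 = 0 := by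
      apply MvPolynomial.funext
      intro T
      rw [map_mul, MvPolynomial.eval_X, map_zero]
      by_cases h : T 0 = 0
      · rw [h, mul_zero]
      · have h2 : MvPolynomial.eval T A.det = 0 := by
          rw [← det_Am, hT T h, hdet, det_Am, ← hPe, h0, Polynomial.eval_zero, mul_zero]
        rw [h2, zero_mul]
    rcases mul_eq_zero.1 h1 with h | h
    · exact hA0 h
    · exact MvPolynomial.X_ne_zero 0 h
  refine ⟨insert ![0, 1] ((P.roots.toFinset).image fun t => ![1, t]), ?_⟩
  intro T hT0 hd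
  by_cases h : T 0 = 0
  · refine ⟨![0, 1], Finset.mem_insert_self _ _, T 1, ?_⟩
    funext i
    fin_cases i
    · simpa using h
    · simp
  · refine ⟨![1, T 1 / T 0], ?_, T 0, hT T h⟩
    apply Finset.mem_insert_of_mem
    rw [Finset.mem_image]
    refine ⟨T 1 / T 0, ?_, rfl⟩
    rw [Multiset.mem_toFinset, Polynomial.mem_roots hP0, Polynomial.IsRoot.def, hPe, ← det_Am]
    rw [hT T h, hdet] at hd
    rcases mul_eq_zero.1 hd with h1 | h1
    · exact absurd h1 (pow_ne_zero _ (pow_ne_zero _ h))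
    · exact h1

end Pool.Agent.R847.QY
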