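import Pool.Agent.R847.QY.Wt

/-!
# Diagonal families with split coefficients of various degrees (project QY, helper847)
-/

set_option autoImplicit false

namespace Pool.Agent.R847.QY

open Matrix Topology Filter
open Pool.Agent.Y720.MZ (FAon)
open Pool.Agent.R847.QM

variable {n N : ℕ}

/-- the diagonal matrix -/
noncomputable def DH (c : Fin N → ℚ) (d : Fin N → ℕ) (l : ∀ i, Fin (d i) → Fin n → ℚ) :
    Matrix (Fin N) (Fin N) (MvPolynomial (Fin n) ℚ) :=
  Matrix.diagonal fun i => MvPolynomial.C (c i) * ∏ j, lf (l i j)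

lemma DH_symm (c : Fin N → ℚ) (d : Fin N → ℕ) (l : ∀ i, Fin (d i) → Fin n → ℚ) :
    (DH c d l).IsSymm := Matrix.isSymm_diagonal _

lemma DH_WH (c : Fin N → ℚ) (d : Fin N → ℕ) (l : ∀ i, Fin (d i) → Fin n → ℚ) (m : Fin N → ℕ)
    (δ : ℕ) (hd : ∀ i, d i + 2 * m i = δ) : WH m δ (DH c d l) := by
  intro i j
  unfold DH
  by_cases h : i = j
  · subst h
    right
    refine ⟨d i, by rw [← hd i]; ring, ?_⟩
    rw [Matrix.diagonal_apply_eq]
    have h1 := MvPolynomial.IsHomogeneous.prod Finset.univ (fun j => lf (l i j)) (fun _ => 1)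
      fun j _ => lf_hom (l i j)
    have h2 := (MvPolynomial.isHomogeneous_C (Fin n) (c i)).mul h1
    simpa using h2
  · left
    exact Matrix.diagonal_apply_ne _ h

lemma DH_det (c : Fin N → ℚ) (hc : ∀ i, c i ≠ 0) (d : Fin N → ℕ)
    (l : ∀ i, Fin (d i) → Fin n → ℚ) (hl : ∀ i j, l i j ≠ 0) : (DH c d l).det ≠ 0 := by
  unfold DH
  rw [Matrix.det_diagonal]
  refine Finset.prod_ne_zero_iff.2 fun i _ => mul_ne_zero ?_ ?_
  · intro h
    exact hc i (MvPolynomial.C_eq_zero.1 h)
  · exact Finset.prod_ne_zero_iff.2 fun j _ => lf_ne (hl i j)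

lemma Am_DH (c : Fin N → ℚ) (d : Fin N → ℕ) (l : ∀ i, Fin (d i) → Fin n → ℚ) (T : Fin n → ℚ) :
    Am (DH c d l) T = Matrix.diagonal fun i => c i * ∏ j, ∑ k, l i j k * T k := by
  unfold Am DH
  rw [Matrix.diagonal_map (map_zero _)]
  congr 1
  funext i
  simp [eval_lf]

lemma qv_DH (c : Fin N → ℚ) (d : Fin N → ℕ) (l : ∀ i, Fin (d i) → Fin n → ℚ) (T : Fin n → ℚ)
    (Y : Fin N → ℚ) :
    qv (Am (DH c d l) T) Y = ∑ i, c i * (∏ j, ∑ k, l i j k * T k) * Y i ^ 2 := by
  rw [Am_DH, qv, dotProduct]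
  refine Finset.sum_congr rfl fun i _ => ?_
  rw [Matrix.mulVec_diagonal]
  ring

lemma FA_DH {L : Type} [NontriviallyNormedField L] [CompleteSpace L] [CharZero L]
    (σ : ℚ →+* L) (hσ : DenseRange σ) (c : Fin N → ℚ) (hc : ∀ i, c i ≠ 0) (d : Fin N → ℕ)
    (l : ∀ i, Fin (d i) → Fin n → ℚ) (Ω : Set (Fin N ⊕ Fin n → L)) :
    FAon σ (ZZ (DH c d l)) Ω := by
  classical
  -- the linear spaces
  let W : (∀ i, Option (Fin (d i))) → Set (Fin N ⊕ Fin n → ℚ) := fun φ =>
    {y | ∀ i, (φ i).elim (y (Sum.inl i) = 0) fun j => ∑ k, l i j k * y (Sum.inr k) = 0}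
  have hW : ∀ φ, FAon σ (W φ) Ω := by
    intro φ
    refine FA_lin σ hσ (W φ) ?_ _
    intro w hw w' hw' t i
    have h1 := hw i
    have h2 := hw' i
    rcases hφ : φ i with _ | j
    · rw [hφ] at h1 h2
      have h1' : w (Sum.inl i) = 0 := h1
      have h2' : w' (Sum.inl i) = 0 := h2
      show w (Sum.inl i) + t * (w' (Sum.inl i) - w (Sum.inl i)) = 0
      rw [h1', h2']
      ring
    · rw [hφ] at h1 h2
      have h1' : ∑ k, l i j k * w (Sum.inr k) = 0 := h1
      have h2' : ∑ k, l i j k * w' (Sum.inr k) = 0 := h2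
      show ∑ k, l i j k * (w (Sum.inr k) + t * (w' (Sum.inr k) - w (Sum.inr k))) = 0
      have e : ∑ k, l i j k * (w (Sum.inr k) + t * (w' (Sum.inr k) - w (Sum.inr k))) =
          (∑ k, l i j k * w (Sum.inr k)) + t * ((∑ k, l i j k * w' (Sum.inr k)) -
            ∑ k, l i j k * w (Sum.inr k)) := by
        rw [mul_sub, Finset.mul_sum, Finset.mul_sum, ← Finset.sum_sub_distrib,
          ← Finset.sum_add_distrib]
        refine Finset.sum_congr rfl fun k _ => ?_
        ring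
      rw [e, h1', h2']
      ring
  have h1 : ZZ (DH c d l) = ⋃ φ ∈ (Finset.univ : Finset (∀ i, Option (Fin (d i)))), W φ := by
    ext y
    rw [Set.mem_iUnion₂]
    constructor
    · intro hy
      have hmv : (Am (DH c d l) fun j => y (Sum.inr j)).mulVec (fun i => y (Sum.inl i)) = 0 := hy
      rw [Am_DH] at hmv
      have h2 : ∀ i, y (Sum.inl i) = 0 ∨ ∃ j, ∑ k, l i j k * y (Sum.inr k) = 0 := by
        intro i
        have h3 := congrFun hmv i
        rw [Matrix.mulVec_diagonal, Pi.zero_apply] at h3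
        rcases mul_eq_zero.1 h3 with h4 | h4
        · right
          have h5 := (mul_eq_zero.1 h4).resolve_left (hc i)
          obtain ⟨j, -, hj⟩ := Finset.prod_eq_zero_iff.1 h5
          exact ⟨j, hj⟩
        · exact Or.inl h4
      have h3 : ∀ i, ∃ o : Option (Fin (d i)), o.elim (y (Sum.inl i) = 0)
          fun j => ∑ k, l i j k * y (Sum.inr k) = 0 := by
        intro i
        rcases h2 i with h | ⟨j, hj⟩
        · exact ⟨none, h⟩
        · exact ⟨some j, hj⟩
      choose φ hφ using h3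
      exact ⟨φ, Finset.mem_univ _, hφ⟩
    · rintro ⟨φ, -, hφ⟩
      show (Am (DH c d l) fun j => y (Sum.inr j)).mulVec (fun i => y (Sum.inl i)) = 0
      rw [Am_DH]
      funext i
      rw [Matrix.mulVec_diagonal, Pi.zero_apply]
      have h2 := hφ i
      rcases hφi : φ i with _ | j
      · rw [hφi] at h2
        have h3 : y (Sum.inl i) = 0 := h2
        rw [h3, mul_zero]
      · rw [hφi] at h2
        have h3 : ∑ k, l i j k * y (Sum.inr k) = 0 := h2
        rw [Finset.prod_eq_zero (Finset.mem_univ j) h3, mul_zero, zero_mul]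
  rw [h1]
  exact FAon.biUnion _ fun φ _ => hW φ

end Pool.Agent.R847.QY
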