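import Pool.Agent.R847.QY.Core
import Pool.Agent.Y720.MZ.PF

/-!
# Families of quadrics with several parameters (project QY, helper847)
-/

set_option autoImplicit false

namespace Pool.Agent.R847.QY

open Matrix Topology Filter
open Pool.Agent.TH729.CV (IA mem_IA FA)
open Pool.Agent.Y720.MZ (FAon mem_IA_iff VI mem_VI fin_abstract IA_congr infinite_near' PF1)
open Pool.Agent.R847.QM
open Pool.Agent.R847.QB (S_MAT)

variable {n N : ℕ}

/-- the matrix at a point of the base -/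
noncomputable def Am (A : Matrix (Fin N) (Fin N) (MvPolynomial (Fin n) ℚ)) (b : Fin n → ℚ) :
    Matrix (Fin N) (Fin N) ℚ := A.map (MvPolynomial.eval b)

/-- the rational points of the family; `Sum.inl` are the coordinates of the quadrics and `Sum.inr`
are the parameters -/
def SS (A : Matrix (Fin N) (Fin N) (MvPolynomial (Fin n) ℚ)) : Set (Fin N ⊕ Fin n → ℚ) :=
  {y | qv (Am A fun j => y (Sum.inr j)) (fun i => y (Sum.inl i)) = 0}

/-- the vertices -/
def ZZ (A : Matrix (Fin N) (Fin N) (MvPolynomial (Fin n) ℚ)) : Set (Fin N ⊕ Fin n → ℚ) :=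
  {y | (Am A fun j => y (Sum.inr j)).mulVec (fun i => y (Sum.inl i)) = 0}

/-- the other points -/
def GG (A : Matrix (Fin N) (Fin N) (MvPolynomial (Fin n) ℚ)) : Set (Fin N ⊕ Fin n → ℚ) :=
  {y | qv (Am A fun j => y (Sum.inr j)) (fun i => y (Sum.inl i)) = 0 ∧
    (Am A fun j => y (Sum.inr j)).mulVec (fun i => y (Sum.inl i)) ≠ 0}

lemma det_Am (A : Matrix (Fin N) (Fin N) (MvPolynomial (Fin n) ℚ)) (b : Fin n → ℚ) :
    (Am A b).det = MvPolynomial.eval b A.det := ((MvPolynomial.eval b).map_det A).symm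

lemma SS_eq (A : Matrix (Fin N) (Fin N) (MvPolynomial (Fin n) ℚ)) : SS A = GG A ∪ ZZ A := by
  ext y
  constructor
  · intro hy
    by_cases h : (Am A fun j => y (Sum.inr j)).mulVec (fun i => y (Sum.inl i)) = 0
    · exact Or.inr h
    · exact Or.inl ⟨hy, h⟩
  · rintro (hy | hy)
    · exact hy.1
    · have h : (Am A fun j => y (Sum.inr j)).mulVec (fun i => y (Sum.inl i)) = 0 := hy
      show qv (Am A fun j => y (Sum.inr j)) (fun i => y (Sum.inl i)) = 0
      rw [qv, h, dotProduct_zero]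

/-- the family over a line -/
noncomputable def AL (A : Matrix (Fin N) (Fin N) (MvPolynomial (Fin n) ℚ)) (b b' : Fin n → ℚ) :
    Matrix (Fin N) (Fin N) (Polynomial ℚ) :=
  A.map (MvPolynomial.aeval fun i => Polynomial.C (b i) + Polynomial.X * Polynomial.C (b' i - b i))

lemma Aat_AL (A : Matrix (Fin N) (Fin N) (MvPolynomial (Fin n) ℚ)) (b b' : Fin n → ℚ) (t : ℚ) :
    Aat (AL A b b') t = Am A fun i => b i + t * (b' i - b i) := by
  ext j k
  unfold Aat AL Am
  rw [Matrix.map_apply, Matrix.map_apply, Matrix.map_apply]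
  have h1 : (Polynomial.aeval t : Polynomial ℚ →ₐ[ℚ] ℚ).comp
      (MvPolynomial.aeval fun i => Polynomial.C (b i) +
        Polynomial.X * Polynomial.C (b' i - b i)) =
      MvPolynomial.aeval fun i => b i + t * (b' i - b i) := by
    apply MvPolynomial.algHom_ext
    intro i
    rw [AlgHom.comp_apply, MvPolynomial.aeval_X, MvPolynomial.aeval_X]
    simp
  have h2 := DFunLike.congr_fun h1 (A j k)
  rw [AlgHom.comp_apply, MvPolynomial.aeval_eq_eval, Polynomial.coe_aeval_eq_eval] at h2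
  exact h2

/-- the restriction of a polynomial to a line -/
noncomputable def fL (b b' : Fin n → ℚ) :
    MvPolynomial (Fin N ⊕ Fin n) ℚ →ₐ[ℚ] MvPolynomial (Fin (N + 1)) ℚ :=
  MvPolynomial.aeval (Sum.elim (fun j => MvPolynomial.X j.succ)
    (fun i => MvPolynomial.C (b i) + MvPolynomial.X 0 * MvPolynomial.C (b' i - b i)))

lemma eval_fL (b b' : Fin n → ℚ) (f : MvPolynomial (Fin N ⊕ Fin n) ℚ) (t : ℚ) (v : Fin N → ℚ) :
    MvPolynomial.eval (Fin.cons t v : Fin (N + 1) → ℚ) (fL b b' f) =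
      MvPolynomial.eval (Sum.elim v fun i => b i + t * (b' i - b i)) f := by
  have h1 : (MvPolynomial.aeval (Fin.cons t v : Fin (N + 1) → ℚ) :
      MvPolynomial (Fin (N + 1)) ℚ →ₐ[ℚ] ℚ).comp (fL b b') =
      MvPolynomial.aeval (Sum.elim v fun i => b i + t * (b' i - b i)) := by
    apply MvPolynomial.algHom_ext
    intro i
    rw [AlgHom.comp_apply, fL, MvPolynomial.aeval_X, MvPolynomial.aeval_X]
    rcases i with i | j
    · simp
    · simp
  have h2 := DFunLike.congr_fun h1 f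
  rw [AlgHom.comp_apply, MvPolynomial.aeval_eq_eval, MvPolynomial.aeval_eq_eval] at h2
  exact h2

lemma AL_symm (A : Matrix (Fin N) (Fin N) (MvPolynomial (Fin n) ℚ)) (hA : A.IsSymm)
    (b b' : Fin n → ℚ) : (AL A b b').IsSymm := hA.map _

lemma line_zero (b b' : Fin n → ℚ) : (fun i => b i + 0 * (b' i - b i)) = b := by
  funext i
  ring

lemma line_one (b b' : Fin n → ℚ) : (fun i => b i + 1 * (b' i - b i)) = b' := by
  funext i
  ring

theorem coreM (hNEAR : S_NEAR) (hLIFT : S_LIFT) (hGLOB : S_GLOB) (hALG : S_ALG) (hMAT : S_MAT)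
    {L : Type} [NontriviallyNormedField L] [CompleteSpace L] [CharZero L] (σ : ℚ →+* L)
    (hσ : DenseRange σ) (hN : 5 ≤ N) (A : Matrix (Fin N) (Fin N) (MvPolynomial (Fin n) ℚ))
    (hA : A.IsSymm) (hA0 : A.det ≠ 0) (y : Fin N ⊕ Fin n → ℚ) (hy : y ∈ GG A)
    (f : MvPolynomial (Fin N ⊕ Fin n) ℚ) (hf : f ∈ IA σ (GG A) (fun i => σ (y i))) :
    f ∈ VI (GG A) := by
  have hne : Nonempty (Fin N) := ⟨⟨0, by omega⟩⟩
  obtain ⟨hq, hmv⟩ := hy
  obtain ⟨U, hU, hfU⟩ := mem_IA_iff.1 hf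
  set b₀ : Fin n → ℚ := fun j => y (Sum.inr j) with hb₀
  set v₀ : Fin N → ℚ := fun i => y (Sum.inl i) with hv₀
  -- first step
  have step1 : ∀ (b₁ : Fin n → ℚ) (v₁ : Fin N → ℚ), (Am A b₁).det ≠ 0 → qv (Am A b₁) v₁ = 0 →
      MvPolynomial.eval (Sum.elim v₁ b₁) f = 0 := by
    intro b₁ v₁ hd₁ hq₁
    have hdet : (AL A b₀ b₁).det ≠ 0 := by
      intro h
      apply hd₁
      have h1 := det_Aat (AL A b₀ b₁) 1
      rw [h, Polynomial.eval_zero, Aat_AL, line_one] at h1
      exact h1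
    have h0 : Aat (AL A b₀ b₁) 0 = Am A b₀ := by rw [Aat_AL, line_zero]
    have h1 : Aat (AL A b₀ b₁) 1 = Am A b₁ := by rw [Aat_AL, line_one]
    set Φ : (Fin (N + 1) → L) → (Fin N ⊕ Fin n → L) := fun z =>
      Sum.elim (fun j => z j.succ) (fun i => σ (b₀ i) + z 0 * σ (b₁ i - b₀ i)) with hΦ
    have hΦc : Continuous Φ := by
      refine continuous_pi fun i => ?_
      rcases i with i | j
      · exact continuous_apply _
      · exact continuous_const.add ((continuous_apply _).mul continuous_const)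
    have hΦσ : ∀ (t : ℚ) (v : Fin N → ℚ), Φ (Fin.cons (σ t) (fun i => σ (v i))) =
        fun i => σ ((Sum.elim v fun i => b₀ i + t * (b₁ i - b₀ i) : Fin N ⊕ Fin n → ℚ) i) := by
      intro t v
      funext i
      rcases i with i | j
      · simp [hΦ]
      · simp [hΦ]
    have hΦ0 : Φ (Fin.cons (σ 0) (fun i => σ (v₀ i))) = fun i => σ (y i) := by
      rw [hΦσ]
      funext i
      rcases i with i | j
      · simp [hv₀]
      · simp [hb₀]
    have hU' : Φ ⁻¹' U ∈ 𝓝 (Fin.cons (σ 0) (fun i => σ (v₀ i)) : Fin (N + 1) → L) := by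
      apply hΦc.continuousAt.preimage_mem_nhds
      rw [hΦ0]
      exact hU
    have h2 := core1 hNEAR hLIFT hGLOB hALG hMAT σ hσ hN (AL A b₀ b₁) (AL_symm A hA b₀ b₁) hdet 0
      v₀ (by rw [h0]; exact hq) (by rw [h0]; exact hmv) (Φ ⁻¹' U) hU' (fL b₀ b₁ f) ?_ 1 v₁ ?_ ?_
    · rw [eval_fL, line_one] at h2
      exact h2
    · intro t v hdt hv hqt hU₁
      rw [eval_fL]
      apply hfU
      · rw [Aat_AL] at hdt hqt
        refine ⟨hqt, ?_⟩
        intro h3
        exact hv (Matrix.eq_zero_of_mulVec_eq_zero hdt h3)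
      · have h4 : Φ (Fin.cons (σ t) (fun i => σ (v i))) ∈ U := hU₁
        rw [hΦσ] at h4
        exact h4
    · rw [h1]
      intro h3
      apply hd₁
      rw [h3]
      exact Matrix.det_zero
    · rw [h1]
      exact hq₁
  -- second step
  rintro y₁ ⟨hq₁, hmv₁⟩
  obtain ⟨b₂, hb₂⟩ : ∃ b₂ : Fin n → ℚ, MvPolynomial.eval b₂ A.det ≠ 0 := by
    by_contra hcon
    push Not at hcon
    apply hA0
    apply MvPolynomial.funext
    intro b
    rw [hcon b, map_zero]
  rw [← det_Am] at hb₂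
  set b₁ : Fin n → ℚ := fun j => y₁ (Sum.inr j) with hb₁
  set v₁ : Fin N → ℚ := fun i => y₁ (Sum.inl i) with hv₁
  have hdet : (AL A b₁ b₂).det ≠ 0 := by
    intro h
    apply hb₂
    have h1 := det_Aat (AL A b₁ b₂) 1
    rw [h, Polynomial.eval_zero, Aat_AL, line_one] at h1
    exact h1
  have h0 : Aat (AL A b₁ b₂) 0 = Am A b₁ := by rw [Aat_AL, line_zero]
  have h2 := core1 hNEAR hLIFT hGLOB hALG hMAT σ hσ hN (AL A b₁ b₂) (AL_symm A hA b₁ b₂) hdet 0
    v₁ (by rw [h0]; exact hq₁) (by rw [h0]; exact hmv₁) Set.univ univ_mem (fL b₁ b₂ f) ?_ 0 v₁ ?_ ?_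
  · rw [eval_fL, line_zero] at h2
    have e : Sum.elim v₁ b₁ = y₁ := by
      funext i
      rcases i with i | j <;> rfl
    rwa [e] at h2
  · intro t v hdt _ hqt _
    rw [eval_fL]
    rw [Aat_AL] at hdt hqt
    exact step1 _ v hdt hqt
  · rw [h0]
    intro h3
    apply hmv₁
    rw [h3, zero_mulVec]
  · rw [h0]
    exact hq₁

/-- **the local ideals of a family of quadrics and those of its vertices** -/
theorem transfer (hNEAR : S_NEAR) (hLIFT : S_LIFT) (hGLOB : S_GLOB) (hALG : S_ALG)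
    (hMAT : S_MAT) {L : Type} [NontriviallyNormedField L] [CompleteSpace L] [CharZero L]
    (σ : ℚ →+* L) (hσ : DenseRange σ) (hN : 5 ≤ N)
    (A : Matrix (Fin N) (Fin N) (MvPolynomial (Fin n) ℚ)) (hA : A.IsSymm) (hA0 : A.det ≠ 0)
    (Ω : Set (Fin N ⊕ Fin n → L)) (hZ : FAon σ (ZZ A) Ω) : FAon σ (SS A) Ω := by
  have h1 : FAon σ (GG A) Set.univ := by
    refine fin_abstract (B := ∅) isOpen_univ (Set.empty_subset _) ?_ (FAon.empty _)
    intro y hy _ _ f hf
    exact coreM hNEAR hLIFT hGLOB hALG hMAT σ hσ hN A hA hA0 y hy f hf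
  rw [SS_eq]
  exact (h1.mono (Set.subset_univ _)).union hZ

/-- linear subspaces -/
theorem FA_lin {L : Type} [NontriviallyNormedField L] [CompleteSpace L] [CharZero L]
    (σ : ℚ →+* L) (hσ : DenseRange σ) {τ : Type} [Finite τ] (W : Set (τ → ℚ))
    (hW : ∀ w ∈ W, ∀ w' ∈ W, ∀ c : ℚ, (fun i => w i + c * (w' i - w i)) ∈ W)
    (Ω : Set (τ → L)) : FAon σ W Ω := by
  have h1 : FAon σ W (Set.univ : Set (τ → L)) := by
    refine fin_abstract (B := ∅) isOpen_univ (Set.empty_subset _) ?_ (FAon.empty _)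
    intro w₀ hw₀ _ _ f hf w hw
    obtain ⟨U, hU, hfU⟩ := mem_IA_iff.1 hf
    have hcont : Continuous fun s : L => fun i => σ (w₀ i) + s * (σ (w i) - σ (w₀ i)) :=
      continuous_pi fun i => continuous_const.add (continuous_id.mul continuous_const)
    have hU' : (fun s : L => fun i => σ (w₀ i) + s * (σ (w i) - σ (w₀ i))) ⁻¹' U ∈ 𝓝 (0 : L) := by
      apply hcont.continuousAt.preimage_mem_nhds
      have e : (fun i => σ (w₀ i) + (0 : L) * (σ (w i) - σ (w₀ i))) = fun i => σ (w₀ i) := by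
        funext i
        ring
      show U ∈ 𝓝 (fun i => σ (w₀ i) + (0 : L) * (σ (w i) - σ (w₀ i)))
      rw [e]
      exact hU
    have hinf := infinite_near' σ hσ hU'
    have hpf : PF1 fun c : ℚ => MvPolynomial.eval (fun i : τ =>
        (fun (i : τ) (c : ℚ) => w₀ i + c * (w i - w₀ i)) i c) f := by
      refine PF1.eval (φ := fun (i : τ) (c : ℚ) => w₀ i + c * (w i - w₀ i)) ?_ f
      intro i
      exact (PF1.const _).add (PF1.id'.mul (PF1.const _))
    have h2 := hpf.zero (hinf.mono ?_) 1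
    · have e : (fun i : τ => w₀ i + 1 * (w i - w₀ i)) = w := by
        funext i
        ring
      have h3 : MvPolynomial.eval (fun i : τ => w₀ i + 1 * (w i - w₀ i)) f = 0 := h2
      rwa [e] at h3
    · rintro c ⟨hc, -⟩
      show MvPolynomial.eval (fun i => w₀ i + c * (w i - w₀ i)) f = 0
      refine hfU _ (hW w₀ hw₀ w hw c) ?_
      have e : (fun i => σ (w₀ i + c * (w i - w₀ i))) =
          fun i => σ (w₀ i) + σ c * (σ (w i) - σ (w₀ i)) := by
        funext i
        rw [map_add, map_mul, map_sub]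
      rw [e]
      exact hc
  exact h1.mono (Set.subset_univ _)

end Pool.Agent.R847.QY
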