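import Pool.Agent.R847.QY.Diag

/-!
# Weighted bihomogeneous coordinates: quadric bundles in projective bundles (project QY, helper847)
-/

set_option autoImplicit false

namespace Pool.Agent.R847.QY

open Matrix Topology Filter
open Pool.Agent.TH729.CV (IA mem_IA FA)
open Pool.Agent.Y720.MZ (FAon mem_IA_iff VI mem_VI fin_abstract IA_congr infinite_near' PF1)
open Pool.Agent.R847.QM
open Pool.Agent.R847.QB (S_MAT)

variable {n N : ℕ}

/-- the local ideals in weighted bihomogeneous coordinates -/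
def WJ {L : Type} [NontriviallyNormedField L] (σ : ℚ →+* L) (m : Fin N → ℕ)
    (V : Set (Fin N ⊕ Fin n → ℚ)) (x : Fin N → L) (s : Fin n → L) :
    Set (MvPolynomial (Fin N ⊕ Fin n) ℚ) :=
  {f | ∃ U ∈ 𝓝 (x, s), ∀ (Y : Fin N → ℚ) (T : Fin n → ℚ), Y ≠ 0 → T ≠ 0 →
    (Sum.elim Y T : Fin N ⊕ Fin n → ℚ) ∈ V →
    (∃ c e : L, c ≠ 0 ∧ e ≠ 0 ∧
      ((fun i => c * e ^ m i * σ (Y i)), fun j => e * σ (T j)) ∈ U) →
    ∀ a b : ℚ, MvPolynomial.eval (Sum.elim (fun i => a * b ^ m i * Y i) (fun j => b * T j)) f = 0}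

lemma WJ_eq {L : Type} [NontriviallyNormedField L] [CompleteSpace L] [CharZero L] (σ : ℚ →+* L)
    (hσ : DenseRange σ) (m : Fin N → ℕ) (V : Set (Fin N ⊕ Fin n → ℚ))
    (hV : ∀ (Y : Fin N → ℚ) (T : Fin n → ℚ), (Sum.elim Y T : Fin N ⊕ Fin n → ℚ) ∈ V →
      ∀ a b : ℚ, a ≠ 0 → b ≠ 0 →
        (Sum.elim (fun i => a * b ^ m i * Y i) (fun j => b * T j) : Fin N ⊕ Fin n → ℚ) ∈ V)
    (x : Fin N → L) (s : Fin n → L) (hx : x ≠ 0) (hs : s ≠ 0) :
    WJ σ m V x s = (IA σ V (Sum.elim x s) : Set (MvPolynomial (Fin N ⊕ Fin n) ℚ)) := by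
  ext f
  constructor
  · rintro ⟨U, hU, hf⟩
    set Φ : (Fin N ⊕ Fin n → L) → (Fin N → L) × (Fin n → L) := fun z =>
      ((fun i => z (Sum.inl i)), fun j => z (Sum.inr j)) with hΦ
    have hΦc : Continuous Φ := by
      refine (continuous_pi fun i => ?_).prodMk (continuous_pi fun j => ?_)
      · exact continuous_apply _
      · exact continuous_apply _
    have hU2 : U ∩ {p : (Fin N → L) × (Fin n → L) | p.1 ≠ 0 ∧ p.2 ≠ 0} ∈ 𝓝 (x, s) := by
      refine inter_mem hU ?_
      have ho : IsOpen {p : (Fin N → L) × (Fin n → L) | p.1 ≠ 0 ∧ p.2 ≠ 0} :=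
        (isOpen_ne.preimage continuous_fst).inter (isOpen_ne.preimage continuous_snd)
      exact ho.mem_nhds ⟨hx, hs⟩
    refine mem_IA_iff.2 ⟨Φ ⁻¹' (U ∩ {p : (Fin N → L) × (Fin n → L) | p.1 ≠ 0 ∧ p.2 ≠ 0}), ?_, ?_⟩
    · apply hΦc.continuousAt.preimage_mem_nhds
      exact hU2
    · rintro y hy ⟨hy1, hy2, hy3⟩
      have e : (Sum.elim (fun i => y (Sum.inl i)) (fun j => y (Sum.inr j)) :
          Fin N ⊕ Fin n → ℚ) = y := by
        funext i
        rcases i with i | j <;> rfl
      have h1 := hf (fun i => y (Sum.inl i)) (fun j => y (Sum.inr j)) ?_ ?_ (by rw [e]; exact hy)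
        ⟨1, 1, one_ne_zero, one_ne_zero, ?_⟩ 1 1
      · simp only [one_pow, one_mul] at h1
        rwa [e] at h1
      · intro h0
        apply hy2
        funext i
        have := congrFun h0 i
        simp only [Pi.zero_apply] at this
        show σ (y (Sum.inl i)) = 0
        rw [this, map_zero]
      · intro h0
        apply hy3
        funext j
        have := congrFun h0 j
        simp only [Pi.zero_apply] at this
        show σ (y (Sum.inr j)) = 0
        rw [this, map_zero]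
      · simp only [one_pow, one_mul]
        exact hy1
  · intro hf
    obtain ⟨U, hU, hfU⟩ := mem_IA_iff.1 hf
    have hΘc : Continuous fun p : (Fin N → L) × (Fin n → L) =>
        (Sum.elim p.1 p.2 : Fin N ⊕ Fin n → L) := by
      refine continuous_pi fun i => ?_
      rcases i with i | j
      · exact (continuous_apply i).comp continuous_fst
      · exact (continuous_apply j).comp continuous_snd
    refine ⟨(fun p : (Fin N → L) × (Fin n → L) =>
        (Sum.elim p.1 p.2 : Fin N ⊕ Fin n → L)) ⁻¹' (interior U), ?_, ?_⟩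
    · apply hΘc.continuousAt.preimage_mem_nhds
      exact isOpen_interior.mem_nhds (mem_interior_iff_mem_nhds.2 hU)
    · rintro Y T hY hT hYT ⟨c, e, hc, he, hce⟩ a b
      have hΨc : Continuous fun p : L × L =>
          (Sum.elim (fun i => p.1 * p.2 ^ m i * σ (Y i)) (fun j => p.2 * σ (T j)) :
            Fin N ⊕ Fin n → L) := by
        refine continuous_pi fun i => ?_
        rcases i with i | j
        · exact (continuous_fst.mul (continuous_snd.pow _)).mul continuous_const
        · exact continuous_snd.mul continuous_const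
      have hnb : (fun p : L × L => (Sum.elim (fun i => p.1 * p.2 ^ m i * σ (Y i))
          (fun j => p.2 * σ (T j)) : Fin N ⊕ Fin n → L)) ⁻¹' (interior U) ∈ 𝓝 (c, e) := by
        apply hΨc.continuousAt.preimage_mem_nhds
        exact isOpen_interior.mem_nhds hce
      obtain ⟨U₁, U₂, hU₁, hc₁, hU₂, he₂, hUU⟩ := mem_nhds_prod_iff'.1 hnb
      have hinf1 := infinite_near' σ hσ (hU₁.mem_nhds hc₁)
      have hinf2 := infinite_near' σ hσ (hU₂.mem_nhds he₂)
      have key : ∀ e' : ℚ, σ e' ∈ U₂ → e' ≠ 0 →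
          MvPolynomial.eval (Sum.elim (fun i => a * e' ^ m i * Y i) (fun j => e' * T j)) f =
            0 := by
        intro e' he' he0
        have hpf : PF1 fun c' : ℚ => MvPolynomial.eval (fun i : Fin N ⊕ Fin n =>
            (fun (i : Fin N ⊕ Fin n) (c' : ℚ) => (Sum.elim (fun i => c' * e' ^ m i * Y i)
              (fun j => e' * T j) : Fin N ⊕ Fin n → ℚ) i) i c') f := by
          refine PF1.eval (φ := fun (i : Fin N ⊕ Fin n) (c' : ℚ) =>
            (Sum.elim (fun i => c' * e' ^ m i * Y i) (fun j => e' * T j) :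
              Fin N ⊕ Fin n → ℚ) i) ?_ f
          rintro (i | j)
          · simp only [Sum.elim_inl]
            exact (PF1.id'.mul (PF1.const _)).mul (PF1.const _)
          · simp only [Sum.elim_inr]
            exact PF1.const _
        refine hpf.zero (hinf1.mono ?_) a
        rintro c' ⟨hc'1, hc'0⟩
        show MvPolynomial.eval (Sum.elim (fun i => c' * e' ^ m i * Y i) (fun j => e' * T j)) f = 0
        refine hfU _ (hV Y T hYT c' e' hc'0 he0) ?_
        have h1 := hUU (Set.mk_mem_prod hc'1 he')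
        have e1 : (fun i => σ ((Sum.elim (fun i => c' * e' ^ m i * Y i) (fun j => e' * T j) :
            Fin N ⊕ Fin n → ℚ) i)) =
            (Sum.elim (fun i => σ c' * σ e' ^ m i * σ (Y i)) (fun j => σ e' * σ (T j)) :
              Fin N ⊕ Fin n → L) := by
          funext i
          rcases i with i | j
          · simp
          · simp
        rw [e1]
        exact interior_subset h1
      have hpf : PF1 fun e' : ℚ => MvPolynomial.eval (fun i : Fin N ⊕ Fin n =>
          (fun (i : Fin N ⊕ Fin n) (e' : ℚ) => (Sum.elim (fun i => a * e' ^ m i * Y i)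
            (fun j => e' * T j) : Fin N ⊕ Fin n → ℚ) i) i e') f := by
        refine PF1.eval (φ := fun (i : Fin N ⊕ Fin n) (e' : ℚ) =>
          (Sum.elim (fun i => a * e' ^ m i * Y i) (fun j => e' * T j) :
            Fin N ⊕ Fin n → ℚ) i) ?_ f
        rintro (i | j)
        · simp only [Sum.elim_inl]
          exact ((PF1.const _).mul (PF1.id'.pow _)).mul (PF1.const _)
        · simp only [Sum.elim_inr]
          exact PF1.id'.mul (PF1.const _)
      refine hpf.zero (hinf2.mono ?_) b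
      rintro e' ⟨he'1, he'0⟩
      exact key e' he'1 he'0

/-- the set of the local ideals is finite -/
lemma WJ_finite {L : Type} [NontriviallyNormedField L] [CompleteSpace L] [CharZero L]
    (σ : ℚ →+* L) (hσ : DenseRange σ) (m : Fin N → ℕ) (V : Set (Fin N ⊕ Fin n → ℚ))
    (hV : ∀ (Y : Fin N → ℚ) (T : Fin n → ℚ), (Sum.elim Y T : Fin N ⊕ Fin n → ℚ) ∈ V →
      ∀ a b : ℚ, a ≠ 0 → b ≠ 0 →
        (Sum.elim (fun i => a * b ^ m i * Y i) (fun j => b * T j) : Fin N ⊕ Fin n → ℚ) ∈ V) :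
    {J | ∃ (x : Fin N → L) (s : Fin n → L), x ≠ 0 ∧ s ≠ 0 ∧ J = WJ σ m V x s}.Finite ↔
      FAon σ V {z : Fin N ⊕ Fin n → L | (fun i => z (Sum.inl i)) ≠ 0 ∧
        (fun j => z (Sum.inr j)) ≠ 0} := by
  have h1 : {J | ∃ (x : Fin N → L) (s : Fin n → L), x ≠ 0 ∧ s ≠ 0 ∧ J = WJ σ m V x s} =
      (fun I : Ideal (MvPolynomial (Fin N ⊕ Fin n) ℚ) =>
        (I : Set (MvPolynomial (Fin N ⊕ Fin n) ℚ))) ''
        ((fun z : Fin N ⊕ Fin n → L => IA σ V z) ''
          {z : Fin N ⊕ Fin n → L | (fun i => z (Sum.inl i)) ≠ 0 ∧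
            (fun j => z (Sum.inr j)) ≠ 0}) := by
    ext J
    constructor
    · rintro ⟨x, s, hx, hs, rfl⟩
      exact ⟨_, ⟨Sum.elim x s, ⟨hx, hs⟩, rfl⟩, (WJ_eq σ hσ m V hV x s hx hs).symm⟩
    · rintro ⟨_, ⟨z, ⟨hx, hs⟩, rfl⟩, rfl⟩
      refine ⟨_, _, hx, hs, ?_⟩
      rw [WJ_eq σ hσ m V hV _ _ hx hs]
      have e : (Sum.elim (fun i => z (Sum.inl i)) (fun j => z (Sum.inr j)) :
          Fin N ⊕ Fin n → L) = z := by
        funext i
        rcases i with i | j <;> rfl
      rw [e]
  rw [h1]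
  exact Set.finite_image_iff SetLike.coe_injective.injOn

/-- weighted homogeneity -/
def WH (m : Fin N → ℕ) (δ : ℕ) (A : Matrix (Fin N) (Fin N) (MvPolynomial (Fin n) ℚ)) : Prop :=
  ∀ i j, A i j = 0 ∨ ∃ k, k + m i + m j = δ ∧ (A i j).IsHomogeneous k

variable {m : Fin N → ℕ} {δ : ℕ} {A : Matrix (Fin N) (Fin N) (MvPolynomial (Fin n) ℚ)}

lemma entry (hA : WH m δ A) (b : ℚ) (T : Fin n → ℚ) (i j : Fin N) :
    MvPolynomial.eval (b • T) (A i j) * (b ^ m i * b ^ m j) =
      b ^ δ * MvPolynomial.eval T (A i j) := by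
  rcases hA i j with h | ⟨k, hk, hh⟩
  · rw [h]
    simp
  · rw [eval_homN hh, ← hk, pow_add, pow_add]
    ring

lemma qv_act (hA : WH m δ A) (a b : ℚ) (Y : Fin N → ℚ) (T : Fin n → ℚ) :
    qv (Am A (b • T)) (fun i => a * b ^ m i * Y i) = a ^ 2 * b ^ δ * qv (Am A T) Y := by
  simp only [qv, dotProduct, mulVec, Finset.mul_sum]
  refine Finset.sum_congr rfl fun i _ => Finset.sum_congr rfl fun j _ => ?_
  have h := entry hA b T i j
  show a * b ^ m i * Y i * (MvPolynomial.eval (b • T) (A i j) * (a * b ^ m j * Y j)) =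
    a ^ 2 * b ^ δ * (Y i * (MvPolynomial.eval T (A i j) * Y j))
  linear_combination (a ^ 2 * Y i * Y j) * h

lemma mv_act (hA : WH m δ A) (a b : ℚ) (Y : Fin N → ℚ) (T : Fin n → ℚ) (i : Fin N) :
    b ^ m i * ((Am A (b • T)).mulVec (fun i => a * b ^ m i * Y i)) i =
      a * b ^ δ * ((Am A T).mulVec Y) i := by
  simp only [dotProduct, mulVec, Finset.mul_sum]
  refine Finset.sum_congr rfl fun j _ => ?_
  have h := entry hA b T i j
  show b ^ m i * (MvPolynomial.eval (b • T) (A i j) * (a * b ^ m j * Y j)) =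
    a * b ^ δ * (MvPolynomial.eval T (A i j) * Y j)
  linear_combination (a * Y j) * h

lemma SS_wcone (hA : WH m δ A) (Y : Fin N → ℚ) (T : Fin n → ℚ)
    (h : (Sum.elim Y T : Fin N ⊕ Fin n → ℚ) ∈ SS A) (a b : ℚ) :
    (Sum.elim (fun i => a * b ^ m i * Y i) (fun j => b * T j) : Fin N ⊕ Fin n → ℚ) ∈ SS A := by
  have h1 : qv (Am A T) Y = 0 := h
  show qv (Am A (b • T)) (fun i => a * b ^ m i * Y i) = 0
  rw [qv_act hA, h1, mul_zero]

lemma ZZ_wcone (hA : WH m δ A) (Y : Fin N → ℚ) (T : Fin n → ℚ)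
    (h : (Sum.elim Y T : Fin N ⊕ Fin n → ℚ) ∈ ZZ A) (a b : ℚ) (hb : b ≠ 0) :
    (Sum.elim (fun i => a * b ^ m i * Y i) (fun j => b * T j) : Fin N ⊕ Fin n → ℚ) ∈ ZZ A := by
  have h1 : (Am A T).mulVec Y = 0 := h
  show (Am A (b • T)).mulVec (fun i => a * b ^ m i * Y i) = 0
  funext i
  have h2 := mv_act hA a b Y T i
  rw [h1, Pi.zero_apply, mul_zero] at h2
  exact (mul_eq_zero.1 h2).resolve_left (pow_ne_zero _ hb)

/-- sets connected by polynomial paths -/
theorem FA_path {L : Type} [NontriviallyNormedField L] [CompleteSpace L] [CharZero L]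
    (σ : ℚ →+* L) (hσ : DenseRange σ) {τ : Type} [Finite τ] (W : Set (τ → ℚ))
    (hW : ∀ w ∈ W, ∀ w' ∈ W, ∃ γ : τ → Polynomial ℚ, (∀ i, (γ i).eval 0 = w i) ∧
      (∀ i, (γ i).eval 1 = w' i) ∧ ∀ c : ℚ, (fun i => (γ i).eval c) ∈ W)
    (Ω : Set (τ → L)) : FAon σ W Ω := by
  have h1 : FAon σ W (Set.univ : Set (τ → L)) := by
    refine fin_abstract (B := ∅) isOpen_univ (Set.empty_subset _) ?_ (FAon.empty _)
    intro w₀ hw₀ _ _ f hf w hw
    obtain ⟨U, hU, hfU⟩ := mem_IA_iff.1 hf
    obtain ⟨γ, hγ0, hγ1, hγ⟩ := hW w₀ hw₀ w hw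
    have hcont : Continuous fun s : L => fun i => (γ i).eval₂ σ s :=
      continuous_pi fun i => Polynomial.continuous_eval₂ _ _
    have hσe : ∀ c : ℚ, (fun i => (γ i).eval₂ σ (σ c)) = fun i => σ ((γ i).eval c) := by
      intro c
      funext i
      exact Polynomial.eval₂_at_apply σ c
    have hU' : (fun s : L => fun i => (γ i).eval₂ σ s) ⁻¹' U ∈ 𝓝 (σ 0) := by
      apply hcont.continuousAt.preimage_mem_nhds
      rw [hσe]
      simp only [hγ0]
      exact hU
    have hinf := infinite_near' σ hσ hU'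
    have hpf : PF1 fun c : ℚ => MvPolynomial.eval (fun i : τ =>
        (fun (i : τ) (c : ℚ) => (γ i).eval c) i c) f :=
      PF1.eval (φ := fun (i : τ) (c : ℚ) => (γ i).eval c) (fun i => ⟨γ i, fun _ => rfl⟩) f
    have h2 := hpf.zero (hinf.mono ?_) 1
    · have h3 : MvPolynomial.eval (fun i : τ => (γ i).eval 1) f = 0 := h2
      simp only [hγ1] at h3
      exact h3
    · rintro c ⟨hc, -⟩
      show MvPolynomial.eval (fun i => (γ i).eval c) f = 0
      refine hfU _ (hγ c) ?_
      rw [← hσe]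
      exact hc
  exact h1.mono (Set.subset_univ _)

/-- **finitely many rational points on the discriminant** -/
theorem finDiscW {L : Type} [NontriviallyNormedField L] [CompleteSpace L] [CharZero L]
    (σ : ℚ →+* L) (hσ : DenseRange σ) (hA : WH m δ A)
    (B : Finset (Fin n → ℚ))
    (hB : ∀ T : Fin n → ℚ, T ≠ 0 → (Am A T).det = 0 → ∃ β ∈ B, ∃ c : ℚ, T = c • β) :
    FAon σ (ZZ A) {z : Fin N ⊕ Fin n → L | (fun i => z (Sum.inl i)) ≠ 0 ∧
        (fun j => z (Sum.inr j)) ≠ 0} := by
  classical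
  -- the pieces
  let W : (Fin n → ℚ) → Set (Fin N ⊕ Fin n → ℚ) := fun β =>
    {y | ∃ (c : ℚ) (Y' : Fin N → ℚ), (∀ j, y (Sum.inr j) = c * β j) ∧
      (Am A β).mulVec Y' = 0 ∧ ∀ i, y (Sum.inl i) = c ^ m i * Y' i}
  have hW : ∀ β, FAon σ (W β) (Set.univ : Set (Fin N ⊕ Fin n → L)) := by
    intro β
    refine FA_path σ hσ (W β) ?_ _
    rintro w ⟨c, Y, h1, h2, h3⟩ w' ⟨c', Y', h1', h2', h3'⟩
    refine ⟨Sum.elim (fun i => (Polynomial.C c + Polynomial.X * Polynomial.C (c' - c)) ^ m i *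
        (Polynomial.C (Y i) + Polynomial.X * Polynomial.C (Y' i - Y i)))
      (fun j => (Polynomial.C c + Polynomial.X * Polynomial.C (c' - c)) * Polynomial.C (β j)),
      ?_, ?_, ?_⟩
    · rintro (i | j)
      · simp [h3]
      · simp [h1]
    · rintro (i | j)
      · simp [h3']
      · simp [h1']
    · intro t
      refine ⟨c + t * (c' - c), fun i => Y i + t * (Y' i - Y i), ?_, ?_, ?_⟩
      · intro j
        simp
      · have e : (fun i => Y i + t * (Y' i - Y i)) = (1 - t) • Y + t • Y' := by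
          funext i
          simp only [Pi.add_apply, Pi.smul_apply, smul_eq_mul]
          ring
        rw [e, Matrix.mulVec_add, Matrix.mulVec_smul, Matrix.mulVec_smul, h2, h2', smul_zero,
          smul_zero, add_zero]
      · intro i
        simp
  have h1 : FAon σ (⋃ β ∈ B, W β) (Set.univ : Set (Fin N ⊕ Fin n → L)) :=
    FAon.biUnion B fun β _ => hW β
  refine Set.Finite.subset h1 ?_
  rintro _ ⟨z, ⟨hz1, hz2⟩, rfl⟩
  refine ⟨z, Set.mem_univ _, ?_⟩
  have hopen : IsOpen {z : Fin N ⊕ Fin n → L | (fun i => z (Sum.inl i)) ≠ 0 ∧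
      (fun j => z (Sum.inr j)) ≠ 0} := by
    have hc1 : Continuous fun z : Fin N ⊕ Fin n → L => fun i => z (Sum.inl i) :=
      continuous_pi fun i => continuous_apply _
    have hc2 : Continuous fun z : Fin N ⊕ Fin n → L => fun j => z (Sum.inr j) :=
      continuous_pi fun i => continuous_apply _
    exact (isOpen_ne.preimage hc1).inter (isOpen_ne.preimage hc2)
  refine (IA_congr (hopen.mem_nhds ⟨hz1, hz2⟩) ?_).symm
  rintro y ⟨hy1, hy2⟩
  have hY : (fun i => y (Sum.inl i)) ≠ 0 := by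
    intro h0
    apply hy1
    funext i
    have := congrFun h0 i
    simp only [Pi.zero_apply] at this
    show σ (y (Sum.inl i)) = 0
    rw [this, map_zero]
  have hT : (fun j => y (Sum.inr j)) ≠ 0 := by
    intro h0
    apply hy2
    funext i
    have := congrFun h0 i
    simp only [Pi.zero_apply] at this
    show σ (y (Sum.inr i)) = 0
    rw [this, map_zero]
  constructor
  · intro hy
    have hmv : (Am A fun j => y (Sum.inr j)).mulVec (fun i => y (Sum.inl i)) = 0 := hy
    have hd : (Am A fun j => y (Sum.inr j)).det = 0 := by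
      by_contra hd
      exact hY (Matrix.eq_zero_of_mulVec_eq_zero hd hmv)
    obtain ⟨β, hβ, c, hc⟩ := hB _ hT hd
    have hc0 : c ≠ 0 := by
      rintro rfl
      apply hT
      rw [hc, zero_smul]
    rw [Set.mem_iUnion₂]
    refine ⟨β, hβ, c, fun i => y (Sum.inl i) / c ^ m i, ?_, ?_, ?_⟩
    · intro j
      exact congrFun hc j
    · funext i
      have h2 := mv_act hA 1 c (fun i => y (Sum.inl i) / c ^ m i) β i
      have e : (fun i => 1 * c ^ m i * (y (Sum.inl i) / c ^ m i)) = fun i => y (Sum.inl i) := by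
        funext i
        have : c ^ m i ≠ 0 := pow_ne_zero _ hc0
        field_simp
      rw [e, ← hc, hmv, Pi.zero_apply, mul_zero, one_mul] at h2
      exact (mul_eq_zero.1 h2.symm).resolve_left (pow_ne_zero _ hc0)
    · intro i
      have : c ^ m i ≠ 0 := pow_ne_zero _ hc0
      field_simp
  · intro hy
    rw [Set.mem_iUnion₂] at hy
    obtain ⟨β, hβ, c, Y', h1, h2, h3⟩ := hy
    have hT' : (fun j => y (Sum.inr j)) = c • β := by
      funext j
      exact h1 j
    have hc0 : c ≠ 0 := by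
      rintro rfl
      apply hT
      rw [hT', zero_smul]
    show (Am A fun j => y (Sum.inr j)).mulVec (fun i => y (Sum.inl i)) = 0
    funext i
    have h4 := mv_act hA 1 c Y' β i
    have e : (fun i => 1 * c ^ m i * Y' i) = fun i => y (Sum.inl i) := by
      funext i
      rw [h3, one_mul]
    rw [e, ← hT', h2, Pi.zero_apply, mul_zero] at h4
    exact (mul_eq_zero.1 h4).resolve_left (pow_ne_zero _ hc0)

lemma det_scale (hA : WH m δ A) {c : ℚ} (hc : c ≠ 0) (T : Fin n → ℚ) :
    (Am A (c • T)).det = 0 ↔ (Am A T).det = 0 := by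
  have h1 : Matrix.diagonal (fun i => c ^ m i) * Am A (c • T) *
      Matrix.diagonal (fun i => c ^ m i) = c ^ δ • Am A T := by
    ext i j
    rw [Matrix.mul_diagonal, Matrix.diagonal_mul, Matrix.smul_apply, smul_eq_mul]
    have h := entry hA c T i j
    show c ^ m i * MvPolynomial.eval (c • T) (A i j) * c ^ m j =
      c ^ δ * MvPolynomial.eval T (A i j)
    linear_combination h
  have h2 := congrArg Matrix.det h1
  rw [Matrix.det_mul, Matrix.det_mul, Matrix.det_smul] at h2
  have h3 : (Matrix.diagonal (fun i => c ^ m i)).det ≠ 0 := by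
    rw [Matrix.det_diagonal]
    exact Finset.prod_ne_zero_iff.2 fun i _ => pow_ne_zero _ hc
  have h4 : (c ^ δ) ^ Fintype.card (Fin N) ≠ 0 := pow_ne_zero _ (pow_ne_zero _ hc)
  constructor
  · intro h
    rw [h, mul_zero, zero_mul] at h2
    exact (mul_eq_zero.1 h2.symm).resolve_left h4
  · intro h
    rw [h, mul_zero] at h2
    exact (mul_eq_zero.1 ((mul_eq_zero.1 h2).resolve_right h3)).resolve_left h3

/-- the rational points of the discriminant over the line -/
lemma disc2W {A : Matrix (Fin N) (Fin N) (MvPolynomial (Fin 2) ℚ)}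
    (hA : WH m δ A) (hA0 : A.det ≠ 0) :
    ∃ B : Finset (Fin 2 → ℚ), ∀ T : Fin 2 → ℚ, T ≠ 0 → (Am A T).det = 0 →
      ∃ β ∈ B, ∃ c : ℚ, T = c • β := by
  classical
  -- the polynomial of the chart
  set P : Polynomial ℚ := MvPolynomial.aeval ![1, Polynomial.X] A.det with hP
  have hPe : ∀ t : ℚ, P.eval t = MvPolynomial.eval ![1, t] A.det := by
    intro t
    have h1 : (Polynomial.aeval t : Polynomial ℚ →ₐ[ℚ] ℚ).comp
        (MvPolynomial.aeval ![1, Polynomial.X]) = MvPolynomial.aeval ![1, t] := by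
      apply MvPolynomial.algHom_ext
      intro i
      rw [AlgHom.comp_apply, MvPolynomial.aeval_X, MvPolynomial.aeval_X]
      fin_cases i
      · simp
      · simp
    have h2 := DFunLike.congr_fun h1 A.det
    rw [AlgHom.comp_apply, MvPolynomial.aeval_eq_eval, Polynomial.coe_aeval_eq_eval] at h2
    exact h2
  have hT : ∀ T : Fin 2 → ℚ, T 0 ≠ 0 → T = T 0 • ![1, T 1 / T 0] := by
    intro T h0
    funext i
    fin_cases i
    · simp
    · simp only [Fin.mk_one, Pi.smul_apply, smul_eq_mul, Matrix.cons_val_one, Matrix.cons_val_fin_one]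
      field_simp
  have hP0 : P ≠ 0 := by
    intro h0
    have h1 : A.det * MvPolynomial.X 0 = 0 := by
      apply MvPolynomial.funext
      intro T
      rw [map_mul, MvPolynomial.eval_X, map_zero]
      by_cases h : T 0 = 0
      · rw [h, mul_zero]
      · have h2 : MvPolynomial.eval T A.det = 0 := by
          rw [← det_Am, hT T h, det_scale hA h, det_Am, ← hPe, h0, Polynomial.eval_zero]
        rw [h2, zero_mul]
    rcases mul_eq_zero.1 h1 with h | h
    · exact hA0 h
    · exact MvPolynomial.X_ne_zero 0 h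
  refine ⟨insert ![0, 1] ((P.roots.toFinset).image fun t => ![1, t]), ?_⟩
  intro T hT0 hd
  by_cases h : T 0 = 0
  · refine ⟨![0, 1], Finset.mem_insert_self _ _, T 1, ?_⟩
    funext i
    fin_cases i
    · simpa using h
    · simp
  · refine ⟨![1, T 1 / T 0], ?_, T 0, hT T h⟩
    apply Finset.mem_insert_of_mem
    rw [Finset.mem_image]
    refine ⟨T 1 / T 0, ?_, rfl⟩
    rw [Multiset.mem_toFinset, Polynomial.mem_roots hP0, Polynomial.IsRoot.def, hPe, ← det_Am]
    rw [hT T h, det_scale hA h] at hd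
    exact hd

end Pool.Agent.R847.QY
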